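import Mathlib
import Pool.Agent.HopfPinch.AnS1

/-!
Two facts on holomorphic functions of several variables: uniform limits, and division by a coordinate.
-/

set_option autoImplicit false

open Set Metric Filter Topology MeasureTheory

namespace Pool.Agent.Q184.SK

/-- Weierstrass theorem for a geometrically convergent sequence. -/
theorem weier {X : Type} [NormedAddCommGroup X] [NormedSpace ℂ X] {U : Set X} (hU : IsOpen U)
    (f : ℕ → X → ℂ) (C : ℝ) (hf : ∀ n, DifferentiableOn ℂ (f n) U)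
    (hc : ∀ n, ∀ x ∈ U, ‖f (n + 1) x - f n x‖ ≤ C * (1 / 2) ^ n) (g : X → ℂ)
    (hg : ∀ x ∈ U, Tendsto (fun n => f n x) atTop (𝓝 (g x))) : DifferentiableOn ℂ g U := by
  intro x0 hx0
  obtain ⟨R, hR, hRO⟩ := Metric.isOpen_iff.1 hU x0 hx0
  set r := R / 2 with hr
  have hr0 : 0 < r := by positivity
  have hsub : ∀ x ∈ ball x0 r, ball x r ⊆ U := by
    intro x hx
    refine Subset.trans ?_ hRO
    refine ball_subset_ball' ?_
    rw [mem_ball] at hx
    linarith
  have hballU : ball x0 r ⊆ U := (ball_subset_ball (by linarith)).trans hRO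
  have hfd : ∀ n, ∀ x ∈ U, HasFDerivAt (f n) (fderiv ℂ (f n) x) x := fun n x hx =>
    ((hf n x hx).differentiableAt (hU.mem_nhds hx)).hasFDerivAt
  have hbound : ∀ n, ∀ x ∈ ball x0 r,
      ‖fderiv ℂ (f (n + 1)) x - fderiv ℂ (f n) x‖ ≤ (2 * C / r) * (1 / 2) ^ n := by
    intro n x hx
    have hxU : x ∈ U := hballU hx
    have h1 : fderiv ℂ (fun y => f (n + 1) y - f n y) x =
        fderiv ℂ (f (n + 1)) x - fderiv ℂ (f n) x :=
      ((hfd (n + 1) x hxU).sub (hfd n x hxU)).fderiv
    rw [← h1]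
    have h2 : ‖fderiv ℂ (fun y => f (n + 1) y - f n y) x‖ ≤ (2 * (C * (1 / 2) ^ n)) / r := by
      refine Complex.norm_fderiv_le_div_of_mapsTo_ball
        (((hf (n + 1)).sub (hf n)).mono (hsub x hx)) ?_ hr0
      intro y hy
      rw [mem_closedBall, dist_eq_norm]
      have h3 := hc n y (hsub x hx hy)
      have h4 := hc n x hxU
      have h5 := norm_sub_le (f (n + 1) y - f n y) (f (n + 1) x - f n x)
      linarith
    refine h2.trans (le_of_eq ?_)
    ring
  have hcs : ∀ x ∈ ball x0 r, ∀ n, dist (fderiv ℂ (f n) x) (fderiv ℂ (f (n + 1)) x) ≤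
      (2 * C / r) * (1 / 2) ^ n := by
    intro x hx n
    rw [dist_comm, dist_eq_norm]
    exact hbound n x hx
  have hlim : ∀ x ∈ ball x0 r, ∃ L : X →L[ℂ] ℂ,
      Tendsto (fun n => fderiv ℂ (f n) x) atTop (𝓝 L) := by
    intro x hx
    exact cauchySeq_tendsto_of_complete
      (cauchySeq_of_le_geometric (1 / 2) (2 * C / r) (by norm_num) (hcs x hx))
  choose! g' hg' using hlim
  have hunif : TendstoUniformlyOn (fun n x => fderiv ℂ (f n) x) g' atTop (ball x0 r) := by
    rw [Metric.tendstoUniformlyOn_iff]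
    intro ε hε
    have h1 : Tendsto (fun n : ℕ => (2 * C / r) * (1 / 2) ^ n / (1 - 1 / 2)) atTop (𝓝 0) := by
      have h2 : Tendsto (fun n : ℕ => ((1 : ℝ) / 2) ^ n) atTop (𝓝 0) :=
        tendsto_pow_atTop_nhds_zero_of_lt_one (by norm_num) (by norm_num)
      have h3 := (h2.const_mul (2 * C / r)).div_const (1 - 1 / 2)
      simpa using h3
    filter_upwards [h1.eventually (gt_mem_nhds hε)] with n hn x hx
    rw [dist_comm]
    exact lt_of_le_of_lt (dist_le_of_le_geometric_of_tendsto (1 / 2) (2 * C / r) (by norm_num)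
      (hcs x hx) (hg' x hx) n) hn
  have h := hasFDerivAt_of_tendstoUniformlyOn isOpen_ball hunif
    (fun n x hx => hfd n x (hballU hx)) (fun x hx => hg x (hballU hx)) (mem_ball_self hr0)
  exact h.differentiableAt.differentiableWithinAt

/-- The open polydisc. -/
def UU (ε ρ : ℝ) : Set (ℂ × ℂ) := ball (0 : ℂ) ε ×ˢ ball (0 : ℂ) ρ

theorem UU_open (ε ρ : ℝ) : IsOpen (UU ε ρ) := isOpen_ball.prod isOpen_ball

theorem mem_UU {ε ρ : ℝ} {p : ℂ × ℂ} : p ∈ UU ε ρ ↔ ‖p.1‖ < ε ∧ ‖p.2‖ < ρ := by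
  rw [UU, mem_prod, mem_ball_zero_iff, mem_ball_zero_iff]

/-- `(g (z, w) - g (z, 0)) / w`. -/
noncomputable def SS (g : ℂ × ℂ → ℂ) (p : ℂ × ℂ) : ℂ := dslope (fun w => g (p.1, w)) 0 p.2

theorem SS_eq (g : ℂ × ℂ → ℂ) (z w : ℂ) : g (z, w) = g (z, 0) + w * SS g (z, w) := by
  unfold SS
  by_cases hw : w = 0
  · subst hw
    simp
  · rw [dslope_of_ne _ hw, slope_def_field]
    field_simp
    ring

theorem slice_diff {ε ρ : ℝ} {g : ℂ × ℂ → ℂ} (hg : DifferentiableOn ℂ g (UU ε ρ)) {z : ℂ}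
    (hz : ‖z‖ < ε) : DifferentiableOn ℂ (fun w => g (z, w)) (ball 0 ρ) := by
  refine hg.comp (f := fun w : ℂ => (z, w)) ?_ ?_
  · exact (differentiable_const z).differentiableOn.prodMk differentiableOn_id
  · intro w hw
    rw [mem_ball_zero_iff] at hw
    exact mem_UU.mpr ⟨hz, hw⟩

theorem SS_bound {ε ρ M : ℝ} (hρ : 0 < ρ) {g : ℂ × ℂ → ℂ} (hg : DifferentiableOn ℂ g (UU ε ρ))
    (hM : ∀ p ∈ UU ε ρ, ‖g p‖ ≤ M) {p : ℂ × ℂ} (hp : p ∈ UU ε ρ) : ‖SS g p‖ ≤ (2 / ρ) * M := by
  obtain ⟨h1, h2⟩ := mem_UU.mp hp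
  have h3 : ‖dslope (fun w => g (p.1, w)) 0 p.2‖ ≤ (2 * M) / ρ := by
    refine Complex.norm_dslope_le_div_of_mapsTo_ball (slice_diff hg h1) ?_
      (by rwa [mem_ball_zero_iff])
    intro w hw
    rw [mem_ball_zero_iff] at hw
    rw [mem_closedBall, dist_eq_norm]
    have h4 := hM (p.1, w) (mem_UU.mpr ⟨h1, hw⟩)
    have h5 := hM (p.1, 0) (mem_UU.mpr ⟨h1, by simpa using hρ⟩)
    have h6 := norm_sub_le (g (p.1, w)) (g (p.1, 0))
    linarith
  refine h3.trans (le_of_eq ?_)
  ring

theorem SS_sub {ε ρ : ℝ} (hρ : 0 < ρ) {g g' : ℂ × ℂ → ℂ} (hg : DifferentiableOn ℂ g (UU ε ρ))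
    (hg' : DifferentiableOn ℂ g' (UU ε ρ)) {p : ℂ × ℂ} (hp : p ∈ UU ε ρ) :
    SS (fun x => g x - g' x) p = SS g p - SS g' p := by
  obtain ⟨h1, h2⟩ := mem_UU.mp hp
  unfold SS
  by_cases hw : p.2 = 0
  · rw [hw, dslope_same, dslope_same, dslope_same]
    have h0 : (0 : ℂ) ∈ ball (0 : ℂ) ρ := mem_ball_self hρ
    have d1 := (slice_diff hg h1).differentiableAt (isOpen_ball.mem_nhds h0)
    have d2 := (slice_diff hg' h1).differentiableAt (isOpen_ball.mem_nhds h0)
    exact deriv_fun_sub d1 d2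
  · rw [dslope_of_ne _ hw, dslope_of_ne _ hw, dslope_of_ne _ hw, slope_def_field, slope_def_field,
      slope_def_field, ← sub_div]
    congr 1
    ring

theorem SS_diff {ε ρ M : ℝ} {g : ℂ × ℂ → ℂ} (hg : DifferentiableOn ℂ g (UU ε ρ))
    (hM : ∀ p ∈ UU ε ρ, ‖g p‖ ≤ M) : DifferentiableOn ℂ (SS g) (UU ε ρ) := by
  intro p hp
  obtain ⟨h1, h2⟩ := mem_UU.mp hp
  -- radii
  obtain ⟨r, hr1, hr2⟩ := exists_between h2
  obtain ⟨s, hs1, hs2⟩ := exists_between hr2
  have hr0 : 0 < r := lt_of_le_of_lt (norm_nonneg _) hr1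
  have hs0 : 0 < s := hr0.trans hs1
  have hρ : 0 < ρ := hs0.trans hs2
  have hM0 : 0 ≤ M := (norm_nonneg _).trans (hM p hp)
  have hcm : ∀ θ, ‖circleMap 0 s θ‖ = s := by
    intro θ
    rw [norm_circleMap_zero, abs_of_pos hs0]
  have hcm0 : ∀ θ, circleMap 0 s θ ≠ 0 := by
    intro θ h
    have := hcm θ
    rw [h, norm_zero] at this
    linarith
  have hO : IsOpen (UU ε r) := UU_open _ _
  have hsep : ∀ θ, ∀ w : ℂ, ‖w‖ < r → s - r ≤ ‖circleMap 0 s θ - w‖ := by
    intro θ w hw
    have := norm_sub_norm_le (circleMap 0 s θ) w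
    rw [hcm θ] at this
    linarith
  have hrep : ∀ q ∈ UU ε r, SS g q = (2 * Real.pi * Complex.I : ℂ)⁻¹ •
      ∫ θ in Ioc (0 : ℝ) (2 * Real.pi), deriv (circleMap 0 s) θ * ((circleMap 0 s θ - q.2)⁻¹ *
        ((g (q.1, circleMap 0 s θ) - g (q.1, 0)) / circleMap 0 s θ)) := by
    rintro ⟨z, w⟩ hq
    obtain ⟨hz, hw⟩ := mem_UU.mp hq
    simp only at hz hw
    have hd : DifferentiableOn ℂ (dslope (fun w => g (z, w)) 0) (ball 0 ρ) :=
      (Complex.differentiableOn_dslope (ball_mem_nhds 0 hρ)).mpr (slice_diff hg hz)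
    have hdc : DiffContOnCl ℂ (dslope (fun w => g (z, w)) 0) (ball 0 s) := by
      refine DifferentiableOn.diffContOnCl ?_
      rw [closure_ball _ hs0.ne']
      exact hd.mono (closedBall_subset_ball hs2)
    have h4 := hdc.two_pi_i_inv_smul_circleIntegral_sub_inv_smul (w := w)
      (by rw [mem_ball_zero_iff]; linarith)
    show dslope (fun w => g (z, w)) 0 w = _
    rw [← h4, circleIntegral, intervalIntegral.integral_of_le (by positivity)]
    simp only [smul_eq_mul]
    congr 1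
    apply integral_congr_ae
    filter_upwards with θ
    rw [dslope_of_ne _ (hcm0 θ), slope_def_field, sub_zero]
  have hint : DifferentiableOn ℂ (fun q : ℂ × ℂ => ∫ θ in Ioc (0 : ℝ) (2 * Real.pi),
      deriv (circleMap 0 s) θ * ((circleMap 0 s θ - q.2)⁻¹ *
        ((g (q.1, circleMap 0 s θ) - g (q.1, 0)) / circleMap 0 s θ))) (UU ε r) := by
    refine Pool.Agent.HP.differentiableOn_integral (X := ℂ × ℂ) (E := ℂ) _ _ (UU ε r) hO ?_ ?_
      (fun _ => s * ((s - r)⁻¹ * ((2 * M) / s))) ?_ ?_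
    · rintro ⟨z, w⟩ hq
      obtain ⟨hz, hw⟩ := mem_UU.mp hq
      simp only at hz hw
      apply Continuous.aestronglyMeasurable
      have hc1 : Continuous (fun θ => g (z, circleMap 0 s θ)) := by
        rw [continuous_iff_continuousAt]
        intro θ
        have h4 : ContinuousAt (fun w => g (z, w)) (circleMap 0 s θ) := by
          apply ((slice_diff hg hz).differentiableAt (isOpen_ball.mem_nhds _)).continuousAt
          rw [mem_ball_zero_iff, hcm θ]
          exact hs2
        exact ContinuousAt.comp (f := fun θ => circleMap 0 s θ) (g := fun w => g (z, w)) h4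
          (continuous_circleMap 0 s).continuousAt
      have hc2 : Continuous (fun θ => (circleMap 0 s θ - w)⁻¹) := by
        refine Continuous.inv₀ ((continuous_circleMap 0 s).sub continuous_const) (fun θ => ?_)
        have := hsep θ w hw
        intro h
        rw [h, norm_zero] at this
        linarith
      have hc3 : Continuous (fun θ => deriv (circleMap 0 s) θ) := by
        simp only [deriv_circleMap]
        exact (continuous_circleMap 0 s).mul continuous_const
      have hc4 : Continuous (fun θ => (g (z, circleMap 0 s θ) - g (z, 0)) / circleMap 0 s θ) :=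
        (hc1.sub continuous_const).div (continuous_circleMap 0 s) hcm0
      exact hc3.mul (hc2.mul hc4)
    · intro θ
      apply DifferentiableOn.const_mul
      apply DifferentiableOn.mul
      · apply DifferentiableOn.inv
        · exact (differentiableOn_const _).sub differentiableOn_snd
        · rintro ⟨z, w⟩ hq
          obtain ⟨hz, hw⟩ := mem_UU.mp hq
          have := hsep θ w hw
          intro h
          simp only at h
          rw [h, norm_zero] at this
          linarith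
      · simp only [div_eq_mul_inv]
        apply DifferentiableOn.mul_const
        apply DifferentiableOn.sub
        · refine hg.comp (f := fun q : ℂ × ℂ => (q.1, circleMap 0 s θ)) ?_ ?_
          · exact differentiableOn_fst.prodMk (differentiableOn_const _)
          · intro q hq
            refine mem_UU.mpr ⟨(mem_UU.mp hq).1, ?_⟩
            show ‖circleMap 0 s θ‖ < ρ
            rw [hcm θ]; exact hs2
        · refine hg.comp (f := fun q : ℂ × ℂ => (q.1, (0 : ℂ))) ?_ ?_
          · exact differentiableOn_fst.prodMk (differentiableOn_const _)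
          · intro q hq
            refine mem_UU.mpr ⟨(mem_UU.mp hq).1, ?_⟩
            show ‖(0 : ℂ)‖ < ρ
            rw [norm_zero]; exact hρ
    · exact integrable_const _
    · rintro θ ⟨z, w⟩ hq
      obtain ⟨hz, hw⟩ := mem_UU.mp hq
      simp only at hz hw
      rw [norm_mul, norm_mul, norm_inv, norm_div, hcm θ]
      have e1 : ‖deriv (circleMap 0 s) θ‖ = s := by
        rw [deriv_circleMap, norm_mul, hcm θ, Complex.norm_I, mul_one]
      rw [e1]
      have h5 := hsep θ w hw
      have h6 : 0 < s - r := by linarith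
      have h7 : ‖g (z, circleMap 0 s θ) - g (z, 0)‖ ≤ 2 * M := by
        have h8 := hM (z, circleMap 0 s θ) (mem_UU.mpr ⟨hz, by
          show ‖circleMap 0 s θ‖ < ρ
          rw [hcm θ]; exact hs2⟩)
        have h9 := hM (z, 0) (mem_UU.mpr ⟨hz, by
          show ‖(0 : ℂ)‖ < ρ
          rw [norm_zero]; exact hρ⟩)
        have h10 := norm_sub_le (g (z, circleMap 0 s θ)) (g (z, 0))
        linarith
      gcongr
  have hfin : DifferentiableOn ℂ (SS g) (UU ε r) := by
    refine (hint.const_smul ((2 * Real.pi * Complex.I : ℂ)⁻¹)).congr ?_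
    intro q hq
    exact hrep q hq
  have hpr : p ∈ UU ε r := mem_UU.mpr ⟨h1, hr1⟩
  exact (hfin.differentiableAt (hO.mem_nhds hpr)).differentiableWithinAt

end Pool.Agent.Q184.SK
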