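import Mathlib
import Pool.Agent.Q184.SK.Base

/-!
The fixed point argument giving the analytic normal form.
-/

set_option autoImplicit false

open Set Metric Filter Topology

namespace Pool.Agent.Q184.SK

/-- iterated quotients -/
noncomputable def TT (g : ℂ × ℂ → ℂ) : ℕ → ℂ × ℂ → ℂ
  | 0 => g
  | n + 1 => SS (TT g n)

theorem TT_succ (g : ℂ × ℂ → ℂ) (n : ℕ) : TT g (n + 1) = SS (TT g n) := rfl

theorem TT_expand (g : ℂ × ℂ → ℂ) (m : ℕ) (z w : ℂ) :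
    g (z, w) = ∑ j ∈ Finset.range m, TT g j (z, 0) * w ^ j + w ^ m * TT g m (z, w) := by
  induction m with
  | zero => simp [TT]
  | succ m ih =>
    rw [ih, Finset.sum_range_succ, TT_succ]
    rw [SS_eq (TT g m) z w]
    rw [pow_succ]
    ring

theorem TT_prop {ε ρ M : ℝ} (hρ : 0 < ρ) {g : ℂ × ℂ → ℂ} (hg : DifferentiableOn ℂ g (UU ε ρ))
    (hM : ∀ p ∈ UU ε ρ, ‖g p‖ ≤ M) (n : ℕ) : DifferentiableOn ℂ (TT g n) (UU ε ρ) ∧
      ∀ p ∈ UU ε ρ, ‖TT g n p‖ ≤ (2 / ρ) ^ n * M := by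
  induction n with
  | zero => exact ⟨hg, fun p hp => by simpa [TT] using hM p hp⟩
  | succ n ih =>
    refine ⟨SS_diff ih.1 ih.2, fun p hp => ?_⟩
    have := SS_bound hρ ih.1 ih.2 hp
    rw [pow_succ]
    calc ‖TT g (n + 1) p‖ ≤ 2 / ρ * ((2 / ρ) ^ n * M) := this
      _ = (2 / ρ) ^ n * (2 / ρ) * M := by ring

theorem TT_sub {ε ρ M : ℝ} (hρ : 0 < ρ) {g g' : ℂ × ℂ → ℂ} (hg : DifferentiableOn ℂ g (UU ε ρ))
    (hg' : DifferentiableOn ℂ g' (UU ε ρ)) (hM : ∀ p ∈ UU ε ρ, ‖g p‖ ≤ M)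
    (hM' : ∀ p ∈ UU ε ρ, ‖g' p‖ ≤ M) (n : ℕ) : ∀ p ∈ UU ε ρ,
      TT (fun x => g x - g' x) n p = TT g n p - TT g' n p := by
  induction n with
  | zero => intro p _; rfl
  | succ n ih =>
    intro p hp
    obtain ⟨h1, h2⟩ := mem_UU.mp hp
    rw [TT_succ, TT_succ, TT_succ, ← SS_sub hρ (TT_prop hρ hg hM n).1 (TT_prop hρ hg' hM' n).1 hp]
    -- congruence of the slope on the slice
    unfold SS
    have hslice : ∀ w ∈ ball (0 : ℂ) ρ, TT (fun x => g x - g' x) n (p.1, w) =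
        TT g n (p.1, w) - TT g' n (p.1, w) := by
      intro w hw
      exact ih _ (mem_UU.mpr ⟨h1, by rwa [mem_ball_zero_iff] at hw⟩)
    have h0 : (0 : ℂ) ∈ ball (0 : ℂ) ρ := mem_ball_self hρ
    by_cases hw : p.2 = 0
    · rw [hw, dslope_same, dslope_same]
      apply Filter.EventuallyEq.deriv_eq
      filter_upwards [isOpen_ball.mem_nhds h0] with w hw
      exact hslice w hw
    · rw [dslope_of_ne _ hw, dslope_of_ne _ hw, slope_def_field, slope_def_field,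
        hslice p.2 (by rw [mem_ball_zero_iff]; exact h2), hslice 0 h0]

/-- the difference estimate -/
theorem TT_dist {ε ρ M δ : ℝ} (hρ : 0 < ρ) {g g' : ℂ × ℂ → ℂ}
    (hg : DifferentiableOn ℂ g (UU ε ρ)) (hg' : DifferentiableOn ℂ g' (UU ε ρ))
    (hM : ∀ p ∈ UU ε ρ, ‖g p‖ ≤ M) (hM' : ∀ p ∈ UU ε ρ, ‖g' p‖ ≤ M)
    (hδ : ∀ p ∈ UU ε ρ, ‖g p - g' p‖ ≤ δ) (n : ℕ) {p : ℂ × ℂ} (hp : p ∈ UU ε ρ) :
    ‖TT g n p - TT g' n p‖ ≤ (2 / ρ) ^ n * δ := by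
  rw [← TT_sub hρ hg hg' hM hM' n p hp]
  exact (TT_prop hρ (hg.sub hg') hδ n).2 p hp

/-! ### Polynomial identities -/

/-- `((w + s)^j - w^j) / s`. -/
noncomputable def Ep (j : ℕ) (w s : ℂ) : ℂ := ∑ i ∈ Finset.range j, (w + s) ^ i * w ^ (j - 1 - i)

theorem Ep_eq (j : ℕ) (w s : ℂ) : (w + s) ^ j = w ^ j + s * Ep j w s := by
  have h := geom_sum₂_mul (w + s) w j
  unfold Ep
  rw [add_sub_cancel_left] at h
  linear_combination -h

/-- `((w + s)^c - w^c - c w^(c-1) s) / s^2`. -/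
noncomputable def Qp (c : ℕ) (w s : ℂ) : ℂ := ∑ i ∈ Finset.range c, Ep i w s * w ^ (c - 1 - i)

theorem Qp_eq (c : ℕ) (w s : ℂ) :
    (w + s) ^ c = w ^ c + c * w ^ (c - 1) * s + s ^ 2 * Qp c w s := by
  have h1 : Ep c w s = c * w ^ (c - 1) + s * Qp c w s := by
    unfold Ep Qp
    rw [Finset.mul_sum]
    have h2 : (c : ℂ) * w ^ (c - 1) = ∑ i ∈ Finset.range c, w ^ i * w ^ (c - 1 - i) := by
      rw [← nsmul_eq_mul, ← Finset.card_range c, ← Finset.sum_const, Finset.card_range]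
      apply Finset.sum_congr rfl
      intro i hi
      rw [Finset.mem_range] at hi
      rw [← pow_add]
      congr 1
      omega
    rw [h2, ← Finset.sum_add_distrib]
    apply Finset.sum_congr rfl
    intro i _
    rw [Ep_eq i w s]
    ring
  rw [Ep_eq c w s, h1]
  ring

/-- The space of the arguments `(z, w, x, y, a)`. -/
abbrev VV (c : ℕ) : Type := ℂ × ℂ × ℂ × ℂ × (Fin (c - 1) → ℂ)

/-- the nonlinear part -/
noncomputable def Psi (c d : ℕ) (v : VV c) : ℂ :=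
  v.1 ^ (d - 2) * v.2.2.2.1 - v.2.2.1 ^ 2 * Qp c v.2.1 (v.1 * v.2.2.1) -
    v.2.2.1 * ∑ j : Fin (c - 1), v.2.2.2.2 j * Ep j v.2.1 (v.1 * v.2.2.1)

theorem Psi_contDiff (c d : ℕ) : ContDiff ℂ 1 (Psi c d) := by
  unfold Psi Qp Ep
  fun_prop

theorem Psi_bound (c d : ℕ) (R : ℝ) : ∃ L : ℝ, 0 ≤ L ∧
    (∀ v ∈ closedBall (0 : VV c) R, ‖Psi c d v‖ ≤ L) ∧
    ∀ v ∈ closedBall (0 : VV c) R, ∀ v' ∈ closedBall (0 : VV c) R,
      ‖Psi c d v - Psi c d v'‖ ≤ L * ‖v - v'‖ := by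
  have hc := Psi_contDiff c d
  obtain ⟨L1, hL1⟩ := (isCompact_closedBall (0 : VV c) R).exists_bound_of_continuousOn
    hc.continuous.continuousOn
  obtain ⟨L2, hL2⟩ := (isCompact_closedBall (0 : VV c) R).exists_bound_of_continuousOn
    (hc.continuous_fderiv one_ne_zero).continuousOn
  refine ⟨|L1| + |L2|, by positivity, ?_, ?_⟩
  · intro v hv
    have := hL1 v hv
    have h2 := le_abs_self L1
    have h3 := abs_nonneg L2
    linarith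
  · intro v hv v' hv'
    have h1 := (convex_closedBall (0 : VV c) R).norm_image_sub_le_of_norm_fderiv_le (𝕜 := ℂ)
      (fun x _ => (hc.differentiable one_ne_zero) x) hL2 hv' hv
    refine h1.trans ?_
    apply mul_le_mul_of_nonneg_right _ (norm_nonneg _)
    have h2 := le_abs_self L2
    have h3 := abs_nonneg L1
    linarith

/-! ### The operator -/

section op

variable (c d : ℕ) (h : ℂ × ℂ → ℂ)

/-- second component of the germ -/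
def fw (p : ℂ × ℂ) : ℂ := p.2 ^ c + p.1 * h p

/-- the quotient `ũ` -/
noncomputable def ut (k : ℂ × ℂ → ℂ) (p : ℂ × ℂ) : ℂ := (c : ℂ)⁻¹ * TT k (c - 1) p

/-- the arguments of `Psi` -/
noncomputable def arg (k : ℂ × ℂ → ℂ) (p : ℂ × ℂ) : VV c :=
  (p.1, p.2, ut c k p, ut c k (p.1 ^ d, fw c h p), fun j => TT k j (p.1, 0))

/-- the operator -/
noncomputable def Gam (k : ℂ × ℂ → ℂ) (p : ℂ × ℂ) : ℂ := h p + p.1 * Psi c d (arg c d h k p)

end op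

/-- Parameters for which the operator is a contraction. -/
structure Par (c d : ℕ) (h : ℂ × ℂ → ℂ) (ε ρ H : ℝ) : Prop where
  hc : 2 ≤ c
  hd : 2 ≤ d
  hε : 0 < ε
  hε1 : ε ≤ 1
  hρ : 0 < ρ
  hρ1 : ρ ≤ 1 / 2
  hH : 0 ≤ H
  hdiff : DifferentiableOn ℂ h (UU ε ρ)
  hbd : ∀ p ∈ UU ε ρ, ‖h p‖ ≤ H
  hεH : ε * H ≤ ρ / 2

/-- the class of functions in which the iteration takes place -/
def Good (ε ρ H : ℝ) (k : ℂ × ℂ → ℂ) : Prop :=
  DifferentiableOn ℂ k (UU ε ρ) ∧ ∀ p ∈ UU ε ρ, ‖k p‖ ≤ H + 1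

section par

variable {c d : ℕ} {h : ℂ × ℂ → ℂ} {ε ρ H : ℝ}

theorem Par.maps (P : Par c d h ε ρ H) {p : ℂ × ℂ} (hp : p ∈ UU ε ρ) :
    (p.1 ^ d, fw c h p) ∈ UU ε ρ := by
  obtain ⟨h1, h2⟩ := mem_UU.mp hp
  have hε1 := P.hε1
  have hρ1 := P.hρ1
  refine mem_UU.mpr ⟨?_, ?_⟩
  · show ‖p.1 ^ d‖ < ε
    rw [norm_pow]
    refine lt_of_le_of_lt ?_ h1
    calc ‖p.1‖ ^ d ≤ ‖p.1‖ ^ 1 :=
          pow_le_pow_of_le_one (norm_nonneg _) (by linarith) (by have := P.hd; omega)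
      _ = ‖p.1‖ := pow_one _
  · show ‖p.2 ^ c + p.1 * h p‖ < ρ
    have h3 : ‖p.2 ^ c‖ ≤ ‖p.2‖ ^ 2 := by
      rw [norm_pow]
      exact pow_le_pow_of_le_one (norm_nonneg _) (by linarith) P.hc
    have h4 : ‖p.1 * h p‖ ≤ ε * H := by
      rw [norm_mul]
      exact mul_le_mul h1.le (P.hbd p hp) (norm_nonneg _) P.hε.le
    have h5 := norm_add_le (p.2 ^ c) (p.1 * h p)
    have h6 := P.hεH
    have h7 := P.hρ
    have h8 := norm_nonneg p.2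
    nlinarith

theorem Par.two_le (P : Par c d h ε ρ H) : 1 ≤ 2 / ρ := by
  rw [le_div_iff₀ P.hρ]
  have := P.hρ1
  linarith

theorem Par.pow_le (P : Par c d h ε ρ H) {n : ℕ} (hn : n ≤ c) : (2 / ρ) ^ n ≤ (2 / ρ) ^ c :=
  pow_le_pow_right₀ P.two_le hn

theorem Par.cinv (P : Par c d h ε ρ H) : ‖((c : ℂ)⁻¹)‖ ≤ 1 := by
  rw [norm_inv, Complex.norm_natCast]
  apply inv_le_one_of_one_le₀
  have := P.hc
  exact_mod_cast (by omega : 1 ≤ c)

theorem Par.ut_good (P : Par c d h ε ρ H) {k : ℂ × ℂ → ℂ} (hk : Good ε ρ H k) :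
    DifferentiableOn ℂ (ut c k) (UU ε ρ) ∧ ∀ p ∈ UU ε ρ, ‖ut c k p‖ ≤ (2 / ρ) ^ c * (H + 1) := by
  have h1 := TT_prop P.hρ hk.1 hk.2 (c - 1)
  refine ⟨h1.1.const_mul _, fun p hp => ?_⟩
  have h2 := h1.2 p hp
  have h3 := P.cinv
  have h4 := P.pow_le (n := c - 1) (by omega)
  have hH := P.hH
  unfold ut
  rw [norm_mul]
  calc ‖((c : ℂ)⁻¹)‖ * ‖TT k (c - 1) p‖ ≤ 1 * ((2 / ρ) ^ (c - 1) * (H + 1)) :=
        mul_le_mul h3 h2 (norm_nonneg _) zero_le_one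
    _ ≤ (2 / ρ) ^ c * (H + 1) := by
        rw [one_mul]
        exact mul_le_mul_of_nonneg_right h4 (by linarith)

theorem Par.base_mem (P : Par c d h ε ρ H) {p : ℂ × ℂ} (hp : p ∈ UU ε ρ) :
    (p.1, (0 : ℂ)) ∈ UU ε ρ :=
  mem_UU.mpr ⟨(mem_UU.mp hp).1, by
    show ‖(0 : ℂ)‖ < ρ
    rw [norm_zero]; exact P.hρ⟩

theorem Par.arg_mem (P : Par c d h ε ρ H) {k : ℂ × ℂ → ℂ} (hk : Good ε ρ H k) {p : ℂ × ℂ}
    (hp : p ∈ UU ε ρ) : arg c d h k p ∈ closedBall (0 : VV c) (max 1 ((2 / ρ) ^ c * (H + 1))) := by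
  obtain ⟨h1, h2⟩ := mem_UU.mp hp
  have hε1 := P.hε1
  have hρ1 := P.hρ1
  have hH := P.hH
  have hB := le_max_right 1 ((2 / ρ) ^ c * (H + 1))
  have hA := le_max_left 1 ((2 / ρ) ^ c * (H + 1))
  rw [mem_closedBall_zero_iff]
  refine norm_prod_le_iff.mpr ⟨?_, norm_prod_le_iff.mpr ⟨?_, norm_prod_le_iff.mpr ⟨?_,
    norm_prod_le_iff.mpr ⟨?_, ?_⟩⟩⟩⟩
  · show ‖p.1‖ ≤ _
    linarith
  · show ‖p.2‖ ≤ _
    linarith
  · exact ((P.ut_good hk).2 p hp).trans hB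
  · exact ((P.ut_good hk).2 _ (P.maps hp)).trans hB
  · show ‖(fun j : Fin (c - 1) => TT k j (p.1, 0))‖ ≤ _
    rw [pi_norm_le_iff_of_nonneg (le_trans zero_le_one hA)]
    intro j
    refine le_trans ?_ hB
    refine ((TT_prop P.hρ hk.1 hk.2 j).2 _ (P.base_mem hp)).trans ?_
    exact mul_le_mul_of_nonneg_right (P.pow_le (by have := j.2; omega)) (by linarith)

theorem Par.arg_dist (P : Par c d h ε ρ H) {k k' : ℂ × ℂ → ℂ} (hk : Good ε ρ H k)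
    (hk' : Good ε ρ H k') {δ : ℝ} (hδ0 : 0 ≤ δ) (hδ : ∀ p ∈ UU ε ρ, ‖k p - k' p‖ ≤ δ) {p : ℂ × ℂ}
    (hp : p ∈ UU ε ρ) : ‖arg c d h k p - arg c d h k' p‖ ≤ (2 / ρ) ^ c * δ := by
  have hB0 : 0 ≤ (2 / ρ) ^ c * δ := by
    have := P.hρ
    positivity
  have hut : ∀ q ∈ UU ε ρ, ‖ut c k q - ut c k' q‖ ≤ (2 / ρ) ^ c * δ := by
    intro q hq
    unfold ut
    rw [← mul_sub, norm_mul]
    have h1 := TT_dist P.hρ hk.1 hk'.1 hk.2 hk'.2 hδ (c - 1) hq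
    calc ‖((c : ℂ)⁻¹)‖ * ‖TT k (c - 1) q - TT k' (c - 1) q‖ ≤ 1 * ((2 / ρ) ^ (c - 1) * δ) :=
          mul_le_mul P.cinv h1 (norm_nonneg _) zero_le_one
      _ ≤ (2 / ρ) ^ c * δ := by
          rw [one_mul]
          exact mul_le_mul_of_nonneg_right (P.pow_le (by omega)) hδ0
  refine norm_prod_le_iff.mpr ⟨?_, norm_prod_le_iff.mpr ⟨?_, norm_prod_le_iff.mpr ⟨?_,
    norm_prod_le_iff.mpr ⟨?_, ?_⟩⟩⟩⟩
  · show ‖p.1 - p.1‖ ≤ _
    rw [sub_self, norm_zero]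
    exact hB0
  · show ‖p.2 - p.2‖ ≤ _
    rw [sub_self, norm_zero]
    exact hB0
  · exact hut p hp
  · exact hut _ (P.maps hp)
  · show ‖(fun j : Fin (c - 1) => TT k j (p.1, 0)) - (fun j : Fin (c - 1) => TT k' j (p.1, 0))‖ ≤ _
    rw [pi_norm_le_iff_of_nonneg hB0]
    intro j
    refine (TT_dist P.hρ hk.1 hk'.1 hk.2 hk'.2 hδ j (P.base_mem hp)).trans ?_
    exact mul_le_mul_of_nonneg_right (P.pow_le (by have := j.2; omega)) hδ0

theorem Par.fw_diff (P : Par c d h ε ρ H) : DifferentiableOn ℂ (fw c h) (UU ε ρ) := by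
  unfold fw
  exact (differentiableOn_snd.pow c).add (differentiableOn_fst.mul P.hdiff)

theorem Par.arg_diff (P : Par c d h ε ρ H) {k : ℂ × ℂ → ℂ} (hk : Good ε ρ H k) :
    DifferentiableOn ℂ (arg c d h k) (UU ε ρ) := by
  unfold arg
  refine differentiableOn_fst.prodMk (differentiableOn_snd.prodMk ((P.ut_good hk).1.prodMk
    (DifferentiableOn.prodMk ?_ ?_)))
  · refine (P.ut_good hk).1.comp (f := fun p : ℂ × ℂ => (p.1 ^ d, fw c h p)) ?_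
      (fun p hp => P.maps hp)
    exact (differentiableOn_fst.pow d).prodMk P.fw_diff
  · rw [differentiableOn_pi]
    intro j
    refine (TT_prop P.hρ hk.1 hk.2 j).1.comp (f := fun p : ℂ × ℂ => (p.1, (0 : ℂ))) ?_
      (fun p hp => P.base_mem hp)
    exact differentiableOn_fst.prodMk (differentiableOn_const _)

theorem Par.Gam_good (P : Par c d h ε ρ H) {L : ℝ}
    (hL1 : ∀ v ∈ closedBall (0 : VV c) (max 1 ((2 / ρ) ^ c * (H + 1))), ‖Psi c d v‖ ≤ L)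
    (hεL : ε * L ≤ 1) {k : ℂ × ℂ → ℂ} (hk : Good ε ρ H k) :
    Good ε ρ H (Gam c d h k) ∧ ∀ p ∈ UU ε ρ, ‖Gam c d h k p - h p‖ ≤ 1 := by
  have h0 : ∀ p ∈ UU ε ρ, ‖Gam c d h k p - h p‖ ≤ 1 := by
    intro p hp
    unfold Gam
    rw [add_sub_cancel_left, norm_mul]
    refine le_trans ?_ hεL
    exact mul_le_mul (mem_UU.mp hp).1.le (hL1 _ (P.arg_mem hk hp)) (norm_nonneg _) P.hε.le
  refine ⟨⟨?_, ?_⟩, h0⟩
  · unfold Gam
    refine P.hdiff.add (differentiableOn_fst.mul ?_)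
    exact ((Psi_contDiff c d).differentiable one_ne_zero).comp_differentiableOn (P.arg_diff hk)
  · intro p hp
    have h1 := h0 p hp
    have h2 := P.hbd p hp
    have h3 := norm_add_le (Gam c d h k p - h p) (h p)
    rw [sub_add_cancel] at h3
    linarith

theorem Par.Gam_dist (P : Par c d h ε ρ H) {L : ℝ} (hL0 : 0 ≤ L)
    (hL2 : ∀ v ∈ closedBall (0 : VV c) (max 1 ((2 / ρ) ^ c * (H + 1))),
      ∀ v' ∈ closedBall (0 : VV c) (max 1 ((2 / ρ) ^ c * (H + 1))),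
        ‖Psi c d v - Psi c d v'‖ ≤ L * ‖v - v'‖)
    (hεL : ε * (L * (2 / ρ) ^ c) ≤ 1 / 2) {k k' : ℂ × ℂ → ℂ} (hk : Good ε ρ H k)
    (hk' : Good ε ρ H k') {δ : ℝ} (hδ0 : 0 ≤ δ) (hδ : ∀ p ∈ UU ε ρ, ‖k p - k' p‖ ≤ δ) {p : ℂ × ℂ}
    (hp : p ∈ UU ε ρ) : ‖Gam c d h k p - Gam c d h k' p‖ ≤ 1 / 2 * δ := by
  unfold Gam
  rw [add_sub_add_left_eq_sub, ← mul_sub, norm_mul]
  have h1 := hL2 _ (P.arg_mem hk hp) _ (P.arg_mem hk' hp)
  have h2 := P.arg_dist (d := d) hk hk' hδ0 hδ hp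
  have h3 : ‖Psi c d (arg c d h k p) - Psi c d (arg c d h k' p)‖ ≤ L * ((2 / ρ) ^ c * δ) :=
    h1.trans (mul_le_mul_of_nonneg_left h2 hL0)
  calc ‖p.1‖ * ‖Psi c d (arg c d h k p) - Psi c d (arg c d h k' p)‖
      ≤ ε * (L * ((2 / ρ) ^ c * δ)) :=
        mul_le_mul (mem_UU.mp hp).1.le h3 (norm_nonneg _) P.hε.le
    _ = ε * (L * (2 / ρ) ^ c) * δ := by ring
    _ ≤ 1 / 2 * δ := mul_le_mul_of_nonneg_right hεL hδ0

/-- The fixed point. -/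
theorem Par.fixed (P : Par c d h ε ρ H) {L : ℝ} (hL0 : 0 ≤ L)
    (hL1 : ∀ v ∈ closedBall (0 : VV c) (max 1 ((2 / ρ) ^ c * (H + 1))), ‖Psi c d v‖ ≤ L)
    (hL2 : ∀ v ∈ closedBall (0 : VV c) (max 1 ((2 / ρ) ^ c * (H + 1))),
      ∀ v' ∈ closedBall (0 : VV c) (max 1 ((2 / ρ) ^ c * (H + 1))),
        ‖Psi c d v - Psi c d v'‖ ≤ L * ‖v - v'‖)
    (hεL : ε * (L * (2 / ρ) ^ c) ≤ 1 / 2) :
    ∃ k : ℂ × ℂ → ℂ, Good ε ρ H k ∧ ∀ p ∈ UU ε ρ, Gam c d h k p = k p := by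
  have hεL1 : ε * L ≤ 1 := by
    have h1 : (1 : ℝ) ≤ (2 / ρ) ^ c := one_le_pow₀ P.two_le
    have h2 : ε * L ≤ ε * (L * (2 / ρ) ^ c) := by
      have := P.hε
      have h3 : L ≤ L * (2 / ρ) ^ c := le_mul_of_one_le_right hL0 h1
      exact mul_le_mul_of_nonneg_left h3 this.le
    linarith
  let K : ℕ → ℂ × ℂ → ℂ := fun n => Nat.rec h (fun _ k => Gam c d h k) n
  have K0 : K 0 = h := rfl
  have K1 : ∀ n, K (n + 1) = Gam c d h (K n) := fun n => rfl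
  have hgood : ∀ n, Good ε ρ H (K n) := by
    intro n
    induction n with
    | zero => exact ⟨P.hdiff, fun p hp => (P.hbd p hp).trans (by linarith)⟩
    | succ n ih =>
      rw [K1]
      exact (P.Gam_good hL1 hεL1 ih).1
  have hdist : ∀ n, ∀ p ∈ UU ε ρ, ‖K (n + 1) p - K n p‖ ≤ 1 * (1 / 2) ^ n := by
    intro n
    induction n with
    | zero =>
      intro p hp
      rw [K1, K0, pow_zero, one_mul]
      exact (P.Gam_good hL1 hεL1 (hgood 0)).2 p hp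
    | succ n ih =>
      intro p hp
      have key := P.Gam_dist hL0 hL2 hεL (hgood (n + 1)) (hgood n) (by positivity) ih hp
      rw [← K1 (n + 1), ← K1 n] at key
      refine key.trans (le_of_eq ?_)
      rw [pow_succ]
      ring
  have hd' : ∀ p ∈ UU ε ρ, ∀ n, dist (K n p) (K (n + 1) p) ≤ 1 * (1 / 2) ^ n := by
    intro p hp n
    rw [dist_comm, dist_eq_norm]
    exact hdist n p hp
  have hlim : ∀ p ∈ UU ε ρ, ∃ y : ℂ, Tendsto (fun n => K n p) atTop (𝓝 y) := by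
    intro p hp
    exact cauchySeq_tendsto_of_complete
      (cauchySeq_of_le_geometric (1 / 2) 1 (by norm_num) (hd' p hp))
  choose! k hk using hlim
  have hrate : ∀ n, ∀ p ∈ UU ε ρ, ‖k p - K n p‖ ≤ 2 * (1 / 2) ^ n := by
    intro n p hp
    have h1 := dist_le_of_le_geometric_of_tendsto (1 / 2) 1 (by norm_num) (hd' p hp) (hk p hp) n
    rw [dist_comm, dist_eq_norm] at h1
    refine h1.trans (le_of_eq ?_)
    ring
  have hkgood : Good ε ρ H k := by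
    refine ⟨weier (UU_open ε ρ) K 1 (fun n => (hgood n).1) hdist k hk, fun p hp => ?_⟩
    exact le_of_tendsto (hk p hp).norm (Eventually.of_forall fun n => (hgood n).2 p hp)
  refine ⟨k, hkgood, fun p hp => ?_⟩
  have h1 : Tendsto (fun n => K (n + 1) p) atTop (𝓝 (k p)) :=
    (hk p hp).comp (tendsto_add_atTop_nat 1)
  have h2 : Tendsto (fun n => K (n + 1) p) atTop (𝓝 (Gam c d h k p)) := by
    rw [tendsto_iff_norm_sub_tendsto_zero]
    have h3 : Tendsto (fun n : ℕ => ((1 : ℝ) / 2) ^ n) atTop (𝓝 0) :=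
      tendsto_pow_atTop_nhds_zero_of_lt_one (by norm_num) (by norm_num)
    refine squeeze_zero (fun n => norm_nonneg _) (fun n => ?_) h3
    rw [K1, norm_sub_rev]
    refine (P.Gam_dist hL0 hL2 hεL hkgood (hgood n) (by positivity) (hrate n) hp).trans
      (le_of_eq ?_)
    ring
  exact tendsto_nhds_unique h2 h1

/-- The conjugacy equation. -/
theorem Par.conj (P : Par c d h ε ρ H) {k : ℂ × ℂ → ℂ}
    (hfix : ∀ p ∈ UU ε ρ, Gam c d h k p = k p) {p : ℂ × ℂ} (hp : p ∈ UU ε ρ) :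
    fw c h p + p.1 ^ d * ut c k (p.1 ^ d, fw c h p) =
      (p.2 + p.1 * ut c k p) ^ c + ∑ j : Fin (c - 1), (p.1 * TT k j (p.1, 0)) *
        (p.2 + p.1 * ut c k p) ^ (j : ℕ) := by
  have hc := P.hc
  have hd := P.hd
  have h1 := hfix p hp
  have h2 := TT_expand k (c - 1) p.1 p.2
  have h3 : k (p.1, p.2) = k p := rfl
  rw [h3, ← h1, ← Fin.sum_univ_eq_sum_range (fun j => TT k j (p.1, 0) * p.2 ^ j) (c - 1)] at h2
  have h4 : TT k (c - 1) (p.1, p.2) = c * ut c k p := by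
    unfold ut
    have : (c : ℂ) ≠ 0 := by exact_mod_cast (by omega : c ≠ 0)
    field_simp
  rw [h4] at h2
  rw [Qp_eq c p.2 (p.1 * ut c k p)]
  have h5 : ∀ j : Fin (c - 1), (p.1 * TT k j (p.1, 0)) * (p.2 + p.1 * ut c k p) ^ (j : ℕ) =
      p.1 * (TT k j (p.1, 0) * p.2 ^ (j : ℕ)) + p.1 * (p.1 * (ut c k p *
        (TT k j (p.1, 0) * Ep j p.2 (p.1 * ut c k p)))) := by
    intro j
    rw [Ep_eq]
    ring
  rw [Finset.sum_congr rfl (fun j _ => h5 j), Finset.sum_add_distrib, ← Finset.mul_sum,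
    ← Finset.mul_sum, ← Finset.mul_sum, ← Finset.mul_sum]
  have h6 : Gam c d h k p = h p + p.1 * (p.1 ^ (d - 2) * ut c k (p.1 ^ d, fw c h p) -
      ut c k p ^ 2 * Qp c p.2 (p.1 * ut c k p) -
      ut c k p * ∑ j : Fin (c - 1), TT k j (p.1, 0) * Ep j p.2 (p.1 * ut c k p)) := rfl
  rw [h6] at h2
  have h7 : p.1 ^ d = p.1 * (p.1 * p.1 ^ (d - 2)) := by
    rw [← pow_succ', ← pow_succ']
    congr 1
    omega
  have h8 : p.1 ^ d * ut c k (p.1 ^ d, fw c h p) =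
      p.1 * (p.1 * (p.1 ^ (d - 2) * ut c k (p.1 ^ d, fw c h p))) := by
    nth_rewrite 1 [h7]
    ring
  rw [h8]
  have h9 : fw c h p = p.2 ^ c + p.1 * h p := rfl
  nth_rewrite 1 [h9]
  linear_combination p.1 * h2

end par

end Pool.Agent.Q184.SK
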